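import Mathlib

/-!
Definitions for the integration problem on the class `C~^2(D_d)`.
-/

namespace Pool.Agent.Results.MP_dca26c_an

open MeasureTheory

/-- Euclidean space `R^d`. -/
abbrev E (d : ℕ) := EuclideanSpace ℝ (Fin d)

/-- `f` belongs to the class `C~^2(D)`: it is `C^2` on the open set `D`, bounded by `1` there,
Lipschitz on `D` with constant `d^(-1/2)`, and for every unit vector `v` the directional
derivative `D^v f` is Lipschitz on `D` with constant `d^(-1)`.  (Only the values of `f` on the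
open set `D` matter.) -/
structure InClass (d : ℕ) (D : Set (E d)) (f : E d → ℝ) : Prop where
  contDiffOn : ContDiffOn ℝ 2 f D
  bound : ∀ x ∈ D, |f x| ≤ 1
  lip : ∀ x ∈ D, ∀ y ∈ D, |f x - f y| ≤ (d : ℝ) ^ (-(1 / 2) : ℝ) * ‖x - y‖
  lip_deriv : ∀ v : E d, ‖v‖ = 1 → ∀ x ∈ D, ∀ y ∈ D,
    |fderiv ℝ f x v - fderiv ℝ f y v| ≤ (d : ℝ)⁻¹ * ‖x - y‖

/-- The worst-case error on `C~^2(D)` of the quadrature rule with nodes `x` and weights `a`. -/
noncomputable def ruleError (d n : ℕ) (D : Set (E d)) (x : Fin n → E d) (a : Fin n → ℝ) :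
    ENNReal :=
  ⨆ (f : E d → ℝ) (_ : InClass d D f),
    ENNReal.ofReal |(∫ y in D, f y) - ∑ i, a i * f (x i)|

/-- The `n`-th minimal worst-case error: infimum over all nodes `x_1, ..., x_n` in `D` and all
real weights `a_1, ..., a_n`. -/
noncomputable def minError (d n : ℕ) (D : Set (E d)) : ENNReal :=
  ⨅ (x : Fin n → E d) (_ : ∀ i, x i ∈ D) (a : Fin n → ℝ), ruleError d n D x a

end Pool.Agent.Results.MP_dca26c_an
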