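import Pool.Agent.H13.C2Int.Main

/-!
MP_dca26c_an, Q1: the dimension-uniform lower bound `e(n, C~^2(D_d)) ≥ C n^(-2/d)` holds for every
open set `D_d` of volume one.
-/

namespace Pool.Agent.Results.MP_dca26c_an.UniformLowerBound

open MeasureTheory Pool.Agent.Results.MP_dca26c_an

/-- There is an absolute constant `C > 0` (the proof gives `C = 1/2240`) such that for all
`d, n ≥ 1` and every open `D ⊆ R^d` of Lebesgue measure `1`, the `n`-th minimal worst-case error of
integration on the class `C~^2(D)` is at least `C * n^(-2/d)`. -/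
theorem result : ∃ C : ℝ, 0 < C ∧ ∀ d n : ℕ, 1 ≤ d → 1 ≤ n →
    ∀ D : Set (EuclideanSpace ℝ (Fin d)), IsOpen D → volume D = 1 →
      ENNReal.ofReal (C * (n : ℝ) ^ (-(2 / d) : ℝ)) ≤ minError d n D :=
  ⟨1 / 2240, by norm_num, fun d n hd hn D hD hvol =>
    Pool.Agent.H13.C2Int.main_bound d n hd hn D hD hvol⟩

end Pool.Agent.Results.MP_dca26c_an.UniformLowerBound
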